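import Pool.Agent.Helper19.HV.XS

/-!
# Project HV, module PSL: `Ps` is stable under subtracting `Ls`
-/

set_option autoImplicit false

namespace Pool.Agent.Helper19.HV

noncomputable section

open PL

theorem mPSL {F : Type} [Field F]
    (hFS : ∀ B : P1 (RatFunc F) → (V (RatFunc F) →ₗ[ℚ] (V (RatFunc F) →ₗ[ℚ] ℚ)), Kil 2 B →
      Kil 3 fun x => B x (cl x))
    {Ψ : P1 (RatFunc F) → (V (RatFunc F) →ₗ[ℚ] ℚ)} (hΨ : Ps Ψ)
    {L : P1 (RatFunc F) → (V (RatFunc F) →ₗ[ℚ] V (RatFunc F) →ₗ[ℚ] ℚ)} (hL : Ls L) :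
    Ps fun x => Ψ x - L x (cl x) where
  kil := by
    intro α hα
    have h1 := hΨ.kil α hα
    have h2 := hFS L hL.kil α hα
    rw [Finsupp.linearCombination_apply, Finsupp.sum] at h1 h2 ⊢
    simp only [smul_sub]
    rw [Finset.sum_sub_distrib, h1, h2, sub_zero]
  cl := by
    intro x
    show Ψ x (PL.cl x) - L x (PL.cl x) (PL.cl x) = 0
    rw [hΨ.cl x, hL.alt x (PL.cl x), sub_zero]
  cst := by
    intro c
    show Ψ (HV.cst c) - L (HV.cst c) (PL.cl (HV.cst c)) = 0
    rw [hΨ.cst c, zero_sub, neg_eq_zero]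
    cases c with
    | none =>
      show L (HV.cst none) 0 = 0
      exact map_zero _
    | some c' =>
      apply LinearMap.ext
      intro k
      exact hL.cst (some c') c' k

end

end Pool.Agent.Helper19.HV
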