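import Pool.Agent.Helper19.HV.Curve
import Pool.Agent.Helper91.PL.A2

/-!
# Project HV (MP_bae8ce_ag), module ROG: five-term functions kill `R 2 F`
-/

set_option autoImplicit false

namespace Pool.Agent.Helper19.HV

noncomputable section

open PL

/-- An alternating bilinear map as an alternating map. -/
private def rogAlt {U N : Type} [AddCommGroup U] [Module ℚ U] [AddCommGroup N] [Module ℚ N]
    (B : U →ₗ[ℚ] U →ₗ[ℚ] N) (h : ∀ a, B a a = 0) : U [⋀^Fin 2]→ₗ[ℚ] N where
  toFun v := B (v 0) (v 1)
  map_update_add' := by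
    intro inst m i x y
    fin_cases i <;> simp [Function.update]
  map_update_smul' := by
    intro inst m i c x
    fin_cases i <;> simp [Function.update]
  map_eq_zero_of_eq' := by
    intro v i j hv hij
    fin_cases i <;> fin_cases j
    · exact absurd rfl hij
    · have h1 : v 0 = v 1 := hv
      rw [h1]
      exact h _
    · have h1 : v 1 = v 0 := hv
      rw [h1]
      exact h _
    · exact absurd rfl hij

private theorem rog_lin {G N : Type} [Field G] [AddCommGroup N] [Module ℚ N]
    (A : V G →ₗ[ℚ] V G →ₗ[ℚ] N) (hA : ∀ v, A v v = 0) :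
    ∃ L : W G 2 →ₗ[ℚ] N, ∀ v w, L (pr G 2 ![v, w]) = A v w :=
  ⟨exteriorPower.alternatingMapLinearEquiv (R := ℚ) (M := V G) (N := N) (n := 2)
    (rogAlt A hA), fun v w =>
      exteriorPower.alternatingMapLinearEquiv_apply_ιMulti (rogAlt A hA) ![v, w]⟩

private theorem rog_alt {G N : Type} [Field G] [AddCommGroup N] [Module ℚ N]
    (A : V G →ₗ[ℚ] V G →ₗ[ℚ] N) (hA : Al2 A) (α : ZP G) (hα : δ2 G α = 0) :
    Finsupp.linearCombination ℚ (fun x => A (cl1 x) (cl x)) α = 0 := by
  obtain ⟨L, hL⟩ := rog_lin A hA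
  have h1 : Finsupp.linearCombination ℚ (fun x : P1 G => A (cl1 x) (cl x)) = L ∘ₗ (δ2 G) := by
    apply Finsupp.lhom_ext
    intro x c
    have h2 : δ2 G (Finsupp.single x c) = c • pr G 2 ![cl1 x, cl x] :=
      Finsupp.linearCombination_single ℚ c x
    rw [LinearMap.comp_apply, h2, Finsupp.linearCombination_single, map_smul, hL]
  rw [h1, LinearMap.comp_apply, hα, map_zero]

private theorem rog_sub {G N : Type} [Field G] [AddCommGroup N] [Module ℚ N] {D D' : G → N}
    (h : FT5 D) (h' : FT5 D') : FT5 fun x => D x - D' x where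
  zero := by rw [h.zero, h'.zero, sub_zero]
  one_sub x := by rw [h.one_sub, h'.one_sub]; abel
  inv x := by rw [h.inv, h'.inv]; abel
  five x y h1 h2 h3 h4 h5 := by
    rw [← h.five x y h1 h2 h3 h4 h5, ← h'.five x y h1 h2 h3 h4 h5]
    abel

theorem mROG {F N : Type} [Field F] [AddCommGroup N] [Module ℚ N]
    (hVL5 : ∀ (D : F → N), FT5 D → ∀ a : F, FT5 fun x : RatFunc F => ext0 D (val a (some x)))
    (hEXF : ∀ ψ : RatFunc F → N, FT5 ψ → (∀ c : F, ψ (RatFunc.C c) = 0) →
      ∃ A : V (RatFunc F) →ₗ[ℚ] V (RatFunc F) →ₗ[ℚ] N, Al2 A ∧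
        (∀ (c : F) v, A (lg (RatFunc.C c)) v = 0) ∧ ∀ x, ψ x = A (lg (1 - x)) (lg x))
    (D : F → N) (h : FT5 D) : Kil 2 (ext0 D) := by
  obtain ⟨A, hA, -, hψ⟩ := hEXF _ (rog_sub (hVL5 D h 0) (hVL5 D h 1)) (fun c => by
    rw [val_C, val_C, sub_self])
  have hT : ∀ x : P1 (RatFunc F), ext0 D (val (0 : F) x) - ext0 D (val (1 : F) x) =
      A (cl1 x) (cl x) := by
    intro x
    cases x with
    | none =>
      have h1 : A (cl1 (none : P1 (RatFunc F))) (cl (none : P1 (RatFunc F))) = 0 := by
        change A 0 0 = 0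
        rw [map_zero]
      rw [h1]
      exact sub_self _
    | some x => exact hψ x
  have hle : R 2 F ≤ LinearMap.ker (Finsupp.linearCombination ℚ (ext0 D)) := by
    change Rgen F (LinearMap.ker (δ2 (RatFunc F))) ≤ _
    unfold Rgen
    refine sup_le ?_ ?_
    · rw [Submodule.span_le]
      rintro x (rfl | hx)
      · rw [SetLike.mem_coe, LinearMap.mem_ker, Finsupp.linearCombination_single, one_smul]
        exact h.zero
      · rw [Set.mem_singleton_iff] at hx
        subst hx
        rw [SetLike.mem_coe, LinearMap.mem_ker, Finsupp.linearCombination_single, one_smul]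
        rfl
    · rintro _ ⟨α, hα, rfl⟩
      rw [LinearMap.mem_ker, LinearMap.sub_apply, map_sub]
      have h1 : ∀ a : F, Finsupp.linearCombination ℚ (ext0 D) (spec a α) =
          Finsupp.linearCombination ℚ (fun x => ext0 D (val a x)) α := by
        intro a
        unfold spec
        rw [Finsupp.lmapDomain_apply, Finsupp.linearCombination_mapDomain]
        rfl
      rw [h1, h1, ← rog_alt A hA α (LinearMap.mem_ker.1 hα), ← LinearMap.sub_apply]
      congr 1
      apply Finsupp.lhom_ext'
      intro x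
      apply LinearMap.ext_ring
      rw [LinearMap.comp_apply, LinearMap.comp_apply, LinearMap.sub_apply, Finsupp.lsingle_apply,
        Finsupp.linearCombination_single, Finsupp.linearCombination_single,
        Finsupp.linearCombination_single, one_smul, one_smul, one_smul]
      exact hT x
  intro α hα
  exact LinearMap.mem_ker.1 (hle hα)

end

end Pool.Agent.Helper19.HV
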