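import Pool.Agent.Helper19.HV.StC

/-!
# Project HV, module CEX: existence of the map induced by the constants
-/

set_option autoImplicit false

open scoped TensorProduct

namespace Pool.Agent.Helper19.HV

noncomputable section

open PL

/-- the map `c` -/
private def cexMap {F : Type} [Field F]
    (hR : ∀ q, ∀ α ∈ R (q + 2) F,
      mapP (RatFunc.C : F →+* RatFunc F) α ∈ R (q + 2) (RatFunc F))
    (L : V F →ₗ[ℚ] V (RatFunc F)) : ∀ k j : ℕ, Γ F k j →ₗ[ℚ] Γ (RatFunc F) k j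
  | 0, j => (0 : Γ F 0 j →ₗ[ℚ] Γ (RatFunc F) 0 j)
  | 1, j => show Γ F 1 j →ₗ[ℚ] Γ (RatFunc F) 1 j from
      (exteriorPower.map (j + 1) L :
        ⋀[ℚ]^(j + 1) (V F) →ₗ[ℚ] ⋀[ℚ]^(j + 1) (V (RatFunc F)))
  | (q + 2), j => show Γ F (q + 2) j →ₗ[ℚ] Γ (RatFunc F) (q + 2) j from
      (TensorProduct.map (Submodule.mapQ (R (q + 2) F) (R (q + 2) (RatFunc F))
        (mapP (RatFunc.C : F →+* RatFunc F)) (fun α hα => hR q α hα))
        (exteriorPower.map j L : ⋀[ℚ]^j (V F) →ₗ[ℚ] ⋀[ℚ]^j (V (RatFunc F))) :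
        B (q + 2) F ⊗[ℚ] ⋀[ℚ]^j (V F) →ₗ[ℚ]
          B (q + 2) (RatFunc F) ⊗[ℚ] ⋀[ℚ]^j (V (RatFunc F)))

theorem mCEX : sCEX := by
  intro F _ hR
  obtain ⟨L, hL⟩ := exists_map (RatFunc.C : F →+* RatFunc F)
  refine ⟨cexMap hR L, ?_, ?_⟩
  · intro j u
    show exteriorPower.map (j + 1) L (exteriorPower.ιMulti ℚ (j + 1) fun i => lg (u i)) =
      exteriorPower.ιMulti ℚ (j + 1) fun i => lg (RatFunc.C (u i))
    rw [exteriorPower.map_apply_ιMulti]
    congr 1
    funext i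
    exact hL (u i)
  · intro q j x u
    have h1 : exteriorPower.map j L (exteriorPower.ιMulti ℚ j fun i => lg (u i)) =
        exteriorPower.ιMulti ℚ j fun i => lg (RatFunc.C (u i)) := by
      rw [exteriorPower.map_apply_ιMulti]
      congr 1
      funext i
      exact hL (u i)
    have h2 : Submodule.mapQ (R (q + 2) F) (R (q + 2) (RatFunc F))
        (mapP (RatFunc.C : F →+* RatFunc F)) (fun α hα => hR q α hα) (sym (q + 2) x) =
        sym (q + 2) (Option.map (RatFunc.C : F →+* RatFunc F) x) := by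
      show (R (q + 2) (RatFunc F)).mkQ (mapP (RatFunc.C : F →+* RatFunc F)
        (Finsupp.single x 1)) = _
      rw [a7_mapP_single]
      rfl
    show (Submodule.mapQ (R (q + 2) F) (R (q + 2) (RatFunc F))
        (mapP (RatFunc.C : F →+* RatFunc F)) (fun α hα => hR q α hα) (sym (q + 2) x)) ⊗ₜ[ℚ]
        (exteriorPower.map j L (exteriorPower.ιMulti ℚ j fun i => lg (u i))) =
      (sym (q + 2) (Option.map (RatFunc.C : F →+* RatFunc F) x)) ⊗ₜ[ℚ]
        (exteriorPower.ιMulti ℚ j fun i => lg (RatFunc.C (u i)))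
    rw [h1, h2]

end

end Pool.Agent.Helper19.HV
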